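import Pool.Agent.H77.LS.PieceBasic

/-!
Module PIECE: the piece estimate in `ℝ^(n+1)`.
-/

set_option autoImplicit false

namespace Pool.Agent.H77.LS

open MeasureTheory Set FourierTransform
open scoped ENNReal NNReal
open Pool.Agent.H83.LS

/-- restriction to the shell `hor ∈ B` -/
noncomputable def sh {n : ℕ} (B : Set ℝ) (f : EE (n + 1) → ℂ) (x : EE (n + 1)) : ℂ :=
  (hor ⁻¹' B : Set (EE (n + 1))).indicator f x

lemma sh_axial {n : ℕ} {B : Set ℝ} {f : EE (n + 1) → ℂ} (hf : Axial f) : Axial (sh B f) := by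
  intro x y h1 h2
  have h3 : hor x = hor y := by unfold hor; rw [h1, h2]
  unfold sh
  by_cases h : x ∈ (hor ⁻¹' B : Set (EE (n + 1)))
  · have h' : y ∈ (hor ⁻¹' B : Set (EE (n + 1))) := by
      simp only [mem_preimage] at h ⊢; rwa [← h3]
    rw [indicator_of_mem h, indicator_of_mem h', hf x y h1 h2]
  · have h' : y ∉ (hor ⁻¹' B : Set (EE (n + 1))) := by
      simp only [mem_preimage] at h ⊢; rwa [← h3]
    rw [indicator_of_notMem h, indicator_of_notMem h']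

lemma bcd_nonneg {d : ℕ} {A : ℝ} {f : EE d → ℂ} (hf : BCd A f) : 0 ≤ A :=
  (norm_nonneg _).trans (hf.2.1 0)

lemma sh_bcd {n : ℕ} {B : Set ℝ} (hB : MeasurableSet B) {A : ℝ} {f : EE (n + 1) → ℂ}
    (hf : BCd A f) : BCd A (sh B f) := by
  refine ⟨hf.1.indicator (measurable_hor hB), fun x => ?_, ?_⟩
  · unfold sh
    by_cases h : x ∈ (hor ⁻¹' B : Set (EE (n + 1)))
    · rw [indicator_of_mem h]; exact hf.2.1 x
    · rw [indicator_of_notMem h, norm_zero]; exact bcd_nonneg hf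
  · obtain ⟨R, hR⟩ := hf.2.2
    refine ⟨R, fun x hx => ?_⟩
    unfold sh
    by_cases h : x ∈ (hor ⁻¹' B : Set (EE (n + 1)))
    · rw [indicator_of_mem h]; exact hR x hx
    · rw [indicator_of_notMem h]

lemma sh_ne {n : ℕ} {B : Set ℝ} {f : EE (n + 1) → ℂ} {x : EE (n + 1)} (h : sh B f x ≠ 0) :
    hor x ∈ B ∧ f x ≠ 0 := by
  unfold sh at h
  have h1 : x ∈ (hor ⁻¹' B : Set (EE (n + 1))) := by
    by_contra hc; exact h (indicator_of_notMem hc f)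
  rw [indicator_of_mem h1] at h
  exact ⟨h1, h⟩

lemma enorm_sh_le {n : ℕ} (B : Set ℝ) (f : EE (n + 1) → ℂ) (x : EE (n + 1)) :
    ‖sh B f x‖ₑ ≤ ‖f x‖ₑ := by
  unfold sh
  by_cases h : x ∈ (hor ⁻¹' B : Set (EE (n + 1)))
  · rw [indicator_of_mem h]
  · rw [indicator_of_notMem h, enorm_zero]; exact zero_le

/-- the profile of a function supported in `hor ≤ b` is admissible -/
lemma ff_pf {n : ℕ} (hn : 2 ≤ n) {A b : ℝ} (hb : 0 ≤ b) {f : EE (n + 1) → ℂ} (hf : BCd A f)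
    (hs : ∀ x, f x ≠ 0 → hor x ≤ b) : PF (b ^ (((n : ℝ) - 1) / 2) * A) (FF n f) := by
  have hn1 : (0 : ℝ) ≤ ((n : ℝ) - 1) / 2 := by
    have : (2 : ℝ) ≤ n := by exact_mod_cast hn
    linarith
  refine ⟨?_, fun y => ?_, fun y hy => ?_, ?_⟩
  · unfold FF
    apply Measurable.ite (measurableSet_lt measurable_const measurable_fst)
    · apply Measurable.mul
      · exact Complex.measurable_ofReal.comp (by fun_prop)
      · exact hf.1.comp continuous_pt.measurable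
    · exact measurable_const
  · unfold FF
    by_cases h : 0 < y.1
    · rw [if_pos h]
      by_cases h0 : f (pt n y.1 y.2) = 0
      · rw [h0, mul_zero, norm_zero]
        exact mul_nonneg (Real.rpow_nonneg hb _) (bcd_nonneg hf)
      · have h1 := hs _ h0
        rw [hor_pt hn h.le] at h1
        rw [norm_mul, Complex.norm_real, Real.norm_eq_abs, abs_of_nonneg (Real.rpow_nonneg h.le _)]
        exact mul_le_mul (Real.rpow_le_rpow h.le h1 hn1) (hf.2.1 _) (norm_nonneg _)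
          (Real.rpow_nonneg hb _)
    · rw [if_neg h, norm_zero]
      exact mul_nonneg (Real.rpow_nonneg hb _) (bcd_nonneg hf)
  · unfold FF at hy
    by_contra h
    exact hy (if_neg h)
  · obtain ⟨R, hR⟩ := hf.2.2
    refine ⟨R, fun y hy => ?_⟩
    unfold FF
    by_cases h : 0 < y.1
    · rw [if_pos h, hR _ (lt_of_lt_of_le hy (norm_le_norm_pt hn y)), mul_zero]
    · rw [if_neg h]

/-- support of the profile -/
lemma ff_ne {n : ℕ} (hn : 2 ≤ n) {f : EE (n + 1) → ℂ} {y : ℝ × ℝ} (h : FF n f y ≠ 0) :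
    0 < y.1 ∧ f (pt n y.1 y.2) ≠ 0 ∧ hor (pt n y.1 y.2) = y.1 := by
  have h1 : 0 < y.1 := by
    by_contra hc
    exact h (by unfold FF; exact if_neg hc)
  refine ⟨h1, ?_, hor_pt hn h1.le _⟩
  unfold FF at h
  rw [if_pos h1] at h
  exact right_ne_zero_of_mul h

lemma rpow_half_sq {n : ℕ} (hn : 2 ≤ n) {r : ℝ} (hr : 0 < r) :
    (r ^ (((n : ℝ) - 1) / 2)) ^ 2 = r ^ (n - 1) := by
  rw [← Real.rpow_natCast, ← Real.rpow_mul hr.le, ← Real.rpow_natCast]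
  congr 1
  rw [Nat.cast_sub (by omega)]
  push_cast
  ring

/-- energy of the profile -/
lemma ff_l2 {n : ℕ} (hn : 2 ≤ n) {c : ℝ} (hc : 0 < c)
    (hpol : ∀ h : ℝ × ℝ → ℝ≥0∞, Measurable h → ∫⁻ x : EE (n + 1), h (hor x, x (Fin.last n)) =
      ENNReal.ofReal c * ∫⁻ z : ℝ, ∫⁻ ρ in Ioi (0 : ℝ), h (ρ, z) * ENNReal.ofReal (ρ ^ (n - 1)))
    {A b : ℝ} (hb : 0 ≤ b) {f : EE (n + 1) → ℂ} (hf : BCd A f) (ha : Axial f)
    (hs : ∀ x, f x ≠ 0 → hor x ≤ b) :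
    ∫⁻ y, ‖FF n f y‖ₑ ^ 2 = ENNReal.ofReal (1 / c) * ∫⁻ x, ‖f x‖ₑ ^ 2 := by
  have hF := (ff_pf hn hb hf hs).1
  have h1 : ∫⁻ y, ‖FF n f y‖ₑ ^ 2 = ∫⁻ z : ℝ, ∫⁻ ρ : ℝ, ‖FF n f (ρ, z)‖ₑ ^ 2 :=
    lintegral_prod_symm' _ (hF.enorm.pow_const 2)
  have h2 : ∫⁻ x, ‖f x‖ₑ ^ 2 = ENNReal.ofReal c * ∫⁻ z : ℝ, ∫⁻ ρ : ℝ, ‖FF n f (ρ, z)‖ₑ ^ 2 := by
    have h3 := hpol (fun y => ‖f (pt n y.1 y.2)‖ₑ ^ 2)
      ((hf.1.comp continuous_pt.measurable).enorm.pow_const 2)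
    have h4 : ∫⁻ x, ‖f x‖ₑ ^ 2 = ∫⁻ x : EE (n + 1), ‖f (pt n (hor x) (x (Fin.last n)))‖ₑ ^ 2 := by
      congr 1
      ext x
      rw [← axial_pt hn ha x]
    rw [h4, h3]
    congr 1
    apply lintegral_congr
    intro z
    rw [← lintegral_indicator measurableSet_Ioi]
    apply lintegral_congr
    intro ρ
    by_cases h : 0 < ρ
    · rw [indicator_of_mem (show ρ ∈ Ioi (0 : ℝ) from h)]
      unfold FF
      rw [if_pos h, enorm_mul, mul_pow, mul_comm]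
      congr 1
      rw [← ofReal_norm, Complex.norm_real, Real.norm_eq_abs,
        abs_of_nonneg (Real.rpow_nonneg h.le _), ← ENNReal.ofReal_pow (Real.rpow_nonneg h.le _),
        rpow_half_sq hn h]
    · rw [indicator_of_notMem (show ρ ∉ Ioi (0 : ℝ) from h)]
      unfold FF
      rw [if_neg h]
      simp
  rw [h1, h2, ← mul_assoc, ← ENNReal.ofReal_mul (by positivity), one_div_mul_cancel hc.ne',
    ENNReal.ofReal_one, one_mul]

/-- the axis is a null set -/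
lemma hor_null {n : ℕ} {c : ℝ}
    (hpol : ∀ h : ℝ × ℝ → ℝ≥0∞, Measurable h → ∫⁻ x : EE (n + 1), h (hor x, x (Fin.last n)) =
      ENNReal.ofReal c * ∫⁻ z : ℝ, ∫⁻ ρ in Ioi (0 : ℝ), h (ρ, z) * ENNReal.ofReal (ρ ^ (n - 1))) :
    volume {x : EE (n + 1) | hor x ≤ 0} = 0 := by
  have hS : MeasurableSet {q : ℝ × ℝ | q.1 ≤ 0} := measurableSet_le measurable_fst measurable_const
  have h1 := hpol ({q : ℝ × ℝ | q.1 ≤ 0}.indicator (fun _ => 1)) (measurable_const.indicator hS)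
  have h2 : ∫⁻ x : EE (n + 1), ({q : ℝ × ℝ | q.1 ≤ 0} : Set (ℝ × ℝ)).indicator
      (fun _ => (1 : ℝ≥0∞)) (hor x, x (Fin.last n)) = volume {x : EE (n + 1) | hor x ≤ 0} := by
    rw [← lintegral_indicator_one (measurableSet_le measurable_hor measurable_const)]
    apply lintegral_congr
    intro x
    by_cases hx : hor x ≤ 0
    · rw [indicator_of_mem (show (hor x, x (Fin.last n)) ∈ {q : ℝ × ℝ | q.1 ≤ 0} from hx),
        indicator_of_mem (show x ∈ {x : EE (n + 1) | hor x ≤ 0} from hx)]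
      rfl
    · rw [indicator_of_notMem (show (hor x, x (Fin.last n)) ∉ {q : ℝ × ℝ | q.1 ≤ 0} from hx),
        indicator_of_notMem (show x ∉ {x : EE (n + 1) | hor x ≤ 0} from hx)]
  rw [← h2, h1]
  have h3 : ∀ z : ℝ, ∫⁻ ρ in Ioi (0 : ℝ), ({q : ℝ × ℝ | q.1 ≤ 0} : Set (ℝ × ℝ)).indicator
      (fun _ => (1 : ℝ≥0∞)) (ρ, z) * ENNReal.ofReal (ρ ^ (n - 1)) = 0 := by
    intro z
    rw [← lintegral_zero (μ := volume.restrict (Ioi (0 : ℝ)))]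
    apply setLIntegral_congr_fun measurableSet_Ioi
    intro ρ hρ
    have : (ρ, z) ∉ {q : ℝ × ℝ | q.1 ≤ 0} := fun h => absurd (show ρ ≤ 0 from h) (not_le.mpr hρ)
    simp only [indicator_of_notMem this, zero_mul]
  simp only [h3, lintegral_zero, mul_zero]

/-- pointwise form of the reduction to profiles -/
lemma key_pt {α c' p r : ℝ} (hc' : 0 < c') (hp : 0 < p) (hr : 0 < r) {w v : ℂ}
    (h : ((r ^ α : ℝ) : ℂ) * w = (c' : ℂ) * v) :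
    ‖w‖ₑ ^ p = ENNReal.ofReal (c' ^ p) * (‖v‖ₑ ^ p * ENNReal.ofReal (r ^ (-(α * p)))) := by
  have h1 := congrArg (fun w : ℂ => ‖w‖ₑ ^ p) h
  simp only [enorm_mul] at h1
  have h2 : ‖((r ^ α : ℝ) : ℂ)‖ₑ = ENNReal.ofReal (r ^ α) := by
    rw [← ofReal_norm, Complex.norm_real, Real.norm_eq_abs, abs_of_nonneg (Real.rpow_nonneg hr.le _)]
  have h3 : ‖(c' : ℂ)‖ₑ = ENNReal.ofReal c' := by
    rw [← ofReal_norm, Complex.norm_real, Real.norm_eq_abs, abs_of_pos hc']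
  rw [h2, h3, ENNReal.mul_rpow_of_nonneg _ _ hp.le, ENNReal.mul_rpow_of_nonneg _ _ hp.le,
    ENNReal.ofReal_rpow_of_nonneg (Real.rpow_nonneg hr.le _) hp.le,
    ENNReal.ofReal_rpow_of_nonneg hc'.le hp.le, ← Real.rpow_mul hr.le] at h1
  have h4 : ENNReal.ofReal (r ^ (α * p)) * ENNReal.ofReal (r ^ (-(α * p))) = 1 := by
    rw [← ENNReal.ofReal_mul (Real.rpow_nonneg hr.le _), ← Real.rpow_add hr, add_neg_cancel,
      Real.rpow_zero, ENNReal.ofReal_one]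
  calc ‖w‖ₑ ^ p = (ENNReal.ofReal (r ^ (α * p)) * ENNReal.ofReal (r ^ (-(α * p)))) * ‖w‖ₑ ^ p := by
        rw [h4, one_mul]
    _ = (ENNReal.ofReal (r ^ (α * p)) * ‖w‖ₑ ^ p) * ENNReal.ofReal (r ^ (-(α * p))) := by ring
    _ = _ := by rw [h1]; ring

/-- the main identity: integration of a piece over `hor ∈ B` -/
lemma main_id {n : ℕ} (hn : 2 ≤ n) {c c' : ℝ} (hc' : 0 < c')
    (hpol : ∀ h : ℝ × ℝ → ℝ≥0∞, Measurable h → ∫⁻ x : EE (n + 1), h (hor x, x (Fin.last n)) =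
      ENNReal.ofReal c * ∫⁻ z : ℝ, ∫⁻ ρ in Ioi (0 : ℝ), h (ρ, z) * ENNReal.ofReal (ρ ^ (n - 1)))
    {p β : ℝ} (hp : 0 < p) (hβ : β = ((n : ℝ) - 1) * (p / 2 - 1))
    (M : EE (n + 1) → ℂ) (P : ℝ × ℝ → ℂ) (hMc : Continuous M)
    (hred : ∀ x : EE (n + 1), (((hor x) ^ (((n : ℝ) - 1) / 2) : ℝ) : ℂ) * M x =
      (c' : ℂ) * P (hor x, x (Fin.last n)))
    {B : Set ℝ} (hB : MeasurableSet B) :
    ∫⁻ x in (hor ⁻¹' B : Set (EE (n + 1))), ‖M x‖ₑ ^ p =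
      ENNReal.ofReal (c * c' ^ p) * ∫⁻ z : ℝ, ∫⁻ r in Ioi (0 : ℝ),
        B.indicator (fun r => ‖P (r, z)‖ₑ ^ p * ENNReal.ofReal (r ^ (-β))) r := by
  obtain ⟨α, hα⟩ : ∃ α : ℝ, α = ((n : ℝ) - 1) / 2 := ⟨_, rfl⟩
  have hnull := hor_null hpol
  have key : ∀ x : EE (n + 1), 0 < hor x → ‖M x‖ₑ ^ p = ENNReal.ofReal (c' ^ p) *
      (‖P (hor x, x (Fin.last n))‖ₑ ^ p * ENNReal.ofReal ((hor x) ^ (-(α * p)))) := by
    intro x hx
    have := hred x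
    rw [← hα] at this
    exact key_pt hc' hp hx this
  have hgm : Measurable ((Prod.fst ⁻¹' B : Set (ℝ × ℝ)).indicator
      (fun q : ℝ × ℝ => ‖M (pt n q.1 q.2)‖ₑ ^ p)) :=
    (((hMc.comp continuous_pt).measurable.enorm).pow_const p).indicator (measurable_fst hB)
  have hg1 : ∀ q : ℝ × ℝ, q.1 ∈ B → (Prod.fst ⁻¹' B : Set (ℝ × ℝ)).indicator
      (fun q : ℝ × ℝ => ‖M (pt n q.1 q.2)‖ₑ ^ p) q = ‖M (pt n q.1 q.2)‖ₑ ^ p := by
    intro q hq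
    exact indicator_of_mem (show q ∈ (Prod.fst ⁻¹' B : Set (ℝ × ℝ)) from hq) _
  have hg0 : ∀ q : ℝ × ℝ, q.1 ∉ B → (Prod.fst ⁻¹' B : Set (ℝ × ℝ)).indicator
      (fun q : ℝ × ℝ => ‖M (pt n q.1 q.2)‖ₑ ^ p) q = 0 := by
    intro q hq
    exact indicator_of_notMem (show q ∉ (Prod.fst ⁻¹' B : Set (ℝ × ℝ)) from hq) _
  have hpt : ∀ r z : ℝ, 0 < r → ‖M (pt n r z)‖ₑ ^ p = ENNReal.ofReal (c' ^ p) *
      (‖P (r, z)‖ₑ ^ p * ENNReal.ofReal (r ^ (-(α * p)))) := by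
    intro r z hr
    have h5 : hor (pt n r z) = r := hor_pt hn hr.le _
    have h6 := key (pt n r z) (by rw [h5]; exact hr)
    rw [h5, pt_last hn] at h6
    exact h6
  generalize hgdef : (Prod.fst ⁻¹' B : Set (ℝ × ℝ)).indicator
      (fun q : ℝ × ℝ => ‖M (pt n q.1 q.2)‖ₑ ^ p) = g at hgm hg1 hg0
  have e1 : ∫⁻ x in (hor ⁻¹' B : Set (EE (n + 1))), ‖M x‖ₑ ^ p =
      ∫⁻ x : EE (n + 1), g (hor x, x (Fin.last n)) := by
    rw [← lintegral_indicator (measurable_hor hB)]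
    apply lintegral_congr_ae
    have h1 : ∀ᵐ x : EE (n + 1), ¬ (hor x ≤ 0) := by
      rw [ae_iff]; simpa using hnull
    filter_upwards [h1] with x hx
    have hx' : 0 < hor x := not_le.mp hx
    by_cases hb : hor x ∈ B
    · rw [indicator_of_mem (show x ∈ (hor ⁻¹' B : Set (EE (n + 1))) from hb),
        hg1 (hor x, x (Fin.last n)) hb, key x hx', hpt _ _ hx']
    · rw [indicator_of_notMem (show x ∉ (hor ⁻¹' B : Set (EE (n + 1))) from hb),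
        hg0 (hor x, x (Fin.last n)) hb]
  rw [e1, hpol g hgm, ENNReal.ofReal_mul' (Real.rpow_nonneg hc'.le _), mul_assoc]
  congr 1
  rw [← lintegral_const_mul' _ _ ENNReal.ofReal_ne_top]
  apply lintegral_congr
  intro z
  rw [← lintegral_const_mul' _ _ ENNReal.ofReal_ne_top]
  apply setLIntegral_congr_fun measurableSet_Ioi
  intro r hr
  have hr' : 0 < r := hr
  simp only
  by_cases hb : r ∈ B
  · rw [hg1 (r, z) hb, indicator_of_mem hb, hpt r z hr', mul_assoc, mul_assoc]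
    congr 2
    rw [← ENNReal.ofReal_mul (Real.rpow_nonneg hr'.le _), ← Real.rpow_natCast,
      ← Real.rpow_add hr']
    congr 2
    rw [hβ, hα, Nat.cast_sub (by omega)]
    push_cast
    ring
  · rw [hg0 (r, z) hb, indicator_of_notMem hb, zero_mul, mul_zero]

/-- scaling of the constants -/
lemma scale_eq {n : ℕ} {p β D A : ℝ} (hβ : β = ((n : ℝ) - 1) * (p / 2 - 1)) (hD : 0 < D)
    (hA : 0 ≤ A) : D ^ (-β) * ((2 * D) ^ (((n : ℝ) - 1) / 2) * A) ^ (p - 2) =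
      2 ^ β * A ^ (p - 2) := by
  have h2D : 0 < 2 * D := by positivity
  rw [Real.mul_rpow (Real.rpow_nonneg h2D.le _) hA, ← Real.rpow_mul h2D.le,
    show ((n : ℝ) - 1) / 2 * (p - 2) = β by rw [hβ]; ring, Real.mul_rpow zero_le_two hD.le]
  have : D ^ (-β) * D ^ β = 1 := by
    rw [← Real.rpow_add hD, neg_add_cancel, Real.rpow_zero]
  calc D ^ (-β) * (2 ^ β * D ^ β * A ^ (p - 2)) = (D ^ (-β) * D ^ β) * (2 ^ β * A ^ (p - 2)) := by
        ring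
    _ = _ := by rw [this, one_mul]

/-- number of shells is absorbed by a power of `lam` -/
lemma count_le {p ε : ℝ} (hp : 0 < p) (hε : 0 < ε) : ∃ K : ℝ, 0 ≤ K ∧ ∀ (M : ℕ) (lam : ℝ),
    1 ≤ lam → (2 : ℝ) ^ M ≤ 96 * lam → ((M : ℝ) + 1) ^ p ≤ K * lam ^ ε := by
  have hδ : 0 < ε / p * Real.log 2 := mul_pos (div_pos hε hp) (Real.log_pos one_lt_two)
  obtain ⟨δ, hδd⟩ : ∃ δ : ℝ, δ = ε / p * Real.log 2 := ⟨_, rfl⟩
  rw [← hδd] at hδ
  refine ⟨(max 1 (1 / δ)) ^ p * 96 ^ ε, by positivity, fun M lam hlam hM => ?_⟩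
  have h1 : (M : ℝ) + 1 ≤ max 1 (1 / δ) * Real.exp (δ * M) := by
    have h2 := Real.add_one_le_exp (δ * M)
    have hM0 : (0 : ℝ) ≤ M := Nat.cast_nonneg M
    have h3 : (0 : ℝ) ≤ max 1 (1 / δ) := le_max_of_le_left zero_le_one
    have h4 : (M : ℝ) ≤ max 1 (1 / δ) * (δ * M) := by
      calc (M : ℝ) = 1 / δ * (δ * M) := by field_simp
        _ ≤ _ := mul_le_mul_of_nonneg_right (le_max_right _ _) (by positivity)
    have h5 : (1 : ℝ) ≤ max 1 (1 / δ) := le_max_left _ _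
    calc (M : ℝ) + 1 ≤ max 1 (1 / δ) * (δ * M) + max 1 (1 / δ) := by linarith
      _ = max 1 (1 / δ) * (δ * M + 1) := by ring
      _ ≤ _ := mul_le_mul_of_nonneg_left h2 h3
  have h6 : (Real.exp (δ * M)) ^ p = ((2 : ℝ) ^ M) ^ ε := by
    rw [← Real.exp_mul, ← Real.rpow_natCast, ← Real.rpow_mul zero_le_two,
      Real.rpow_def_of_pos zero_lt_two]
    congr 1
    rw [hδd]
    field_simp
  calc ((M : ℝ) + 1) ^ p ≤ (max 1 (1 / δ) * Real.exp (δ * M)) ^ p :=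
        Real.rpow_le_rpow (by positivity) h1 hp.le
    _ = (max 1 (1 / δ)) ^ p * ((2 : ℝ) ^ M) ^ ε := by
        rw [Real.mul_rpow (le_max_of_le_left zero_le_one) (Real.exp_pos _).le, h6]
    _ ≤ (max 1 (1 / δ)) ^ p * (96 * lam) ^ ε := by
        apply mul_le_mul_of_nonneg_left _ (by positivity)
        exact Real.rpow_le_rpow (by positivity) hM hε.le
    _ = _ := by
        rw [Real.mul_rpow (by norm_num) (by linarith)]; ring

/-- the shells -/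
noncomputable def shB (Lam : ℝ) (j : ℕ) : Set ℝ :=
  if j = 0 then Iio (2 ^ 1 / Lam) else Ico (2 ^ j / Lam) (2 ^ (j + 1) / Lam)

lemma shB_meas (Lam : ℝ) (j : ℕ) : MeasurableSet (shB Lam j) := by
  unfold shB
  split_ifs
  · exact measurableSet_Iio
  · exact measurableSet_Ico

lemma sum_sh {n : ℕ} {Lam : ℝ} (hL : 0 < Lam) (f : EE (n + 1) → ℂ) (M : ℕ) (x : EE (n + 1)) :
    ∑ j ∈ Finset.range (M + 1), sh (shB Lam j) f x = sh (Iio (2 ^ (M + 1) / Lam)) f x := by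
  induction M with
  | zero => simp [shB]
  | succ M ih =>
    rw [Finset.sum_range_succ, ih]
    unfold sh
    have hle : (2 : ℝ) ^ (M + 1) / Lam ≤ 2 ^ (M + 1 + 1) / Lam := by
      apply div_le_div_of_nonneg_right _ hL.le
      exact pow_le_pow_right₀ one_le_two (Nat.le_succ _)
    have hB : shB Lam (M + 1) = Ico (2 ^ (M + 1) / Lam) (2 ^ (M + 1 + 1) / Lam) := by
      unfold shB; rw [if_neg (Nat.succ_ne_zero M)]
    rw [hB]
    by_cases h1 : hor x < 2 ^ (M + 1) / Lam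
    · rw [indicator_of_mem (show x ∈ hor ⁻¹' Iio (2 ^ (M + 1) / Lam) from h1),
        indicator_of_notMem (show x ∉ hor ⁻¹' Ico (2 ^ (M + 1) / Lam) (2 ^ (M + 1 + 1) / Lam) from
          fun h => absurd (mem_Ico.mp (mem_preimage.mp h)).1 (not_le.mpr h1)),
        indicator_of_mem (show x ∈ hor ⁻¹' Iio (2 ^ (M + 1 + 1) / Lam) from lt_of_lt_of_le h1 hle),
        add_zero]
    · rw [indicator_of_notMem (show x ∉ hor ⁻¹' Iio (2 ^ (M + 1) / Lam) from h1), zero_add]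
      by_cases h2 : hor x < 2 ^ (M + 1 + 1) / Lam
      · rw [indicator_of_mem (show x ∈ hor ⁻¹' Ico (2 ^ (M + 1) / Lam) (2 ^ (M + 1 + 1) / Lam) from
            ⟨not_lt.mp h1, h2⟩),
          indicator_of_mem (show x ∈ hor ⁻¹' Iio (2 ^ (M + 1 + 1) / Lam) from h2)]
      · rw [indicator_of_notMem (show x ∉ hor ⁻¹' Ico (2 ^ (M + 1) / Lam) (2 ^ (M + 1 + 1) / Lam)
            from fun h => h2 (mem_Ico.mp (mem_preimage.mp h)).2),
          indicator_of_notMem (show x ∉ hor ⁻¹' Iio (2 ^ (M + 1 + 1) / Lam) from h2)]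

/-- a single shell -/
lemma one_shell {n : ℕ} (hn : 2 ≤ n) {c c' : ℝ} (hc : 0 < c) (hc' : 0 < c')
    (hpol : ∀ h : ℝ × ℝ → ℝ≥0∞, Measurable h → ∫⁻ x : EE (n + 1), h (hor x, x (Fin.last n)) =
      ENNReal.ofReal c * ∫⁻ z : ℝ, ∫⁻ ρ in Ioi (0 : ℝ), h (ρ, z) * ENNReal.ofReal (ρ ^ (n - 1)))
    {p β : ℝ} (hp : 0 < p) (hβ : β = ((n : ℝ) - 1) * (p / 2 - 1))
    {L A D : ℝ} (hL : 0 ≤ L) (hD : 0 < D) {f : EE (n + 1) → ℂ} (hf : BCd A f)
    (ha : Axial f) (hs : ∀ x, f x ≠ 0 → hor x ≤ 2 * D)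
    (M : ℝ → EE (n + 1) → ℂ) (P : ℝ → ℝ × ℝ → ℂ) (hM : ∀ t, Continuous (M t))
    (hred : ∀ t : ℝ, ∀ x : EE (n + 1), (((hor x) ^ (((n : ℝ) - 1) / 2) : ℝ) : ℂ) * M t x =
      (c' : ℂ) * P t (hor x, x (Fin.last n)))
    {C : ℝ≥0}
    (hC : ∫⁻ t in Icc (1 : ℝ) 2, ∫⁻ z : ℝ, ∫⁻ r in Ioi (0 : ℝ),
      ‖P t (r, z)‖ₑ ^ p * ENNReal.ofReal (r ^ (-β)) ≤
      C * ENNReal.ofReal (L * D ^ (-β) * ((2 * D) ^ (((n : ℝ) - 1) / 2) * A) ^ (p - 2)) *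
        ∫⁻ y, ‖FF n f y‖ₑ ^ 2) :
    ∫⁻ t in Icc (1 : ℝ) 2, ∫⁻ x, ‖M t x‖ₑ ^ p ≤
      ENNReal.ofReal (c * c' ^ p * 2 ^ β * (1 / c)) * C * ENNReal.ofReal (L * A ^ (p - 2)) *
        ∫⁻ x, ‖f x‖ₑ ^ 2 := by
  have hA := bcd_nonneg hf
  have h2D : 0 ≤ 2 * D := by positivity
  have h1 : ∀ t : ℝ, ∫⁻ x, ‖M t x‖ₑ ^ p =
      ENNReal.ofReal (c * c' ^ p) * ∫⁻ z : ℝ, ∫⁻ r in Ioi (0 : ℝ),
        ‖P t (r, z)‖ₑ ^ p * ENNReal.ofReal (r ^ (-β)) := by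
    intro t
    have h2 := main_id hn hc' hpol hp hβ (M t) (P t) (hM t) (hred t)
      (B := univ) MeasurableSet.univ
    rw [preimage_univ, setLIntegral_univ] at h2
    rw [h2]
    simp only [indicator_univ]
  simp_rw [h1]
  rw [lintegral_const_mul' _ _ ENNReal.ofReal_ne_top]
  have h3 := ff_l2 hn hc hpol h2D hf ha hs
  rw [h3, mul_assoc L, scale_eq hβ hD hA] at hC
  generalize (∫⁻ t in Icc (1 : ℝ) 2, ∫⁻ z : ℝ, ∫⁻ r in Ioi (0 : ℝ),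
        ‖P t (r, z)‖ₑ ^ p * ENNReal.ofReal (r ^ (-β))) = J at hC ⊢
  generalize (∫⁻ x, ‖f x‖ₑ ^ 2) = E at hC ⊢
  calc ENNReal.ofReal (c * c' ^ p) * J
      ≤ ENNReal.ofReal (c * c' ^ p) * (C * (ENNReal.ofReal (L * (2 ^ β * A ^ (p - 2)))) *
          (ENNReal.ofReal (1 / c) * E)) := mul_le_mul_right hC _
    _ = _ := by
        have e1 : ENNReal.ofReal (c * c' ^ p * 2 ^ β * (1 / c)) =
            ENNReal.ofReal (c * c' ^ p) * ENNReal.ofReal (2 ^ β) * ENNReal.ofReal (1 / c) := by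
          rw [ENNReal.ofReal_mul (by positivity), ENNReal.ofReal_mul (by positivity)]
        have e2 : ENNReal.ofReal (L * (2 ^ β * A ^ (p - 2))) =
            ENNReal.ofReal (2 ^ β) * ENNReal.ofReal (L * A ^ (p - 2)) := by
          rw [← ENNReal.ofReal_mul (by positivity)]
          congr 1; ring
        rw [e1, e2]
        ring

/-- a shell away from the axis -/
lemma away {n : ℕ} (hn : 2 ≤ n) {c c' : ℝ} (hc : 0 < c) (hc' : 0 < c')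
    (hpol : ∀ h : ℝ × ℝ → ℝ≥0∞, Measurable h → ∫⁻ x : EE (n + 1), h (hor x, x (Fin.last n)) =
      ENNReal.ofReal c * ∫⁻ z : ℝ, ∫⁻ ρ in Ioi (0 : ℝ), h (ρ, z) * ENNReal.ofReal (ρ ^ (n - 1)))
    {p β : ℝ} (hp : 2 < p) (hβ : β = ((n : ℝ) - 1) * (p / 2 - 1)) (hβ0 : 0 ≤ β)
    {L A a b : ℝ} (hL : 0 ≤ L) (ha0 : 0 < a) (hb : 0 < b) (hab : b ≤ 2 * a)
    {f : EE (n + 1) → ℂ} (hf : BCd A f)
    (ha : Axial f) (hs : ∀ x, f x ≠ 0 → hor x ≤ b)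
    (M : ℝ → EE (n + 1) → ℂ) (P : ℝ → ℝ × ℝ → ℂ) (hM : ∀ t, Continuous (M t))
    (hred : ∀ t : ℝ, ∀ x : EE (n + 1), (((hor x) ^ (((n : ℝ) - 1) / 2) : ℝ) : ℂ) * M t x =
      (c' : ℂ) * P t (hor x, x (Fin.last n)))
    {C : ℝ≥0}
    (hC : ∫⁻ t in Icc (1 : ℝ) 2, ∫⁻ z : ℝ, ∫⁻ r in Ioi (0 : ℝ), ‖P t (r, z)‖ₑ ^ p ≤
      C * ENNReal.ofReal (L * (b ^ (((n : ℝ) - 1) / 2) * A) ^ (p - 2)) * ∫⁻ y, ‖FF n f y‖ₑ ^ 2)
    {B : Set ℝ} (hB : MeasurableSet B) (hBa : ∀ r ∈ B, a ≤ r) :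
    ∫⁻ t in Icc (1 : ℝ) 2, ∫⁻ x in (hor ⁻¹' B : Set (EE (n + 1))), ‖M t x‖ₑ ^ p ≤
      ENNReal.ofReal (c * c' ^ p * 2 ^ β * (1 / c)) * C * ENNReal.ofReal (L * A ^ (p - 2)) *
        ∫⁻ x, ‖f x‖ₑ ^ 2 := by
  have hA := bcd_nonneg hf
  have hp0 : 0 < p := by linarith
  have h1 : ∀ t : ℝ, ∫⁻ x in (hor ⁻¹' B : Set (EE (n + 1))), ‖M t x‖ₑ ^ p ≤
      ENNReal.ofReal (c * c' ^ p) * (ENNReal.ofReal (a ^ (-β)) * ∫⁻ z : ℝ, ∫⁻ r in Ioi (0 : ℝ),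
        ‖P t (r, z)‖ₑ ^ p) := by
    intro t
    rw [main_id hn hc' hpol hp0 hβ (M t) (P t) (hM t) (hred t) hB]
    apply mul_le_mul_right
    rw [← lintegral_const_mul' _ _ ENNReal.ofReal_ne_top]
    apply lintegral_mono
    intro z
    simp only
    rw [← lintegral_const_mul' _ _ ENNReal.ofReal_ne_top]
    apply lintegral_mono
    intro r
    simp only
    by_cases hr : r ∈ B
    · rw [indicator_of_mem hr, mul_comm]
      apply mul_le_mul_left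
      apply ENNReal.ofReal_le_ofReal
      exact Real.rpow_le_rpow_of_nonpos ha0 (hBa r hr) (by linarith)
    · rw [indicator_of_notMem hr]; exact zero_le
  have h2 : ∫⁻ t in Icc (1 : ℝ) 2, ∫⁻ x in (hor ⁻¹' B : Set (EE (n + 1))), ‖M t x‖ₑ ^ p ≤
      ENNReal.ofReal (c * c' ^ p) * (ENNReal.ofReal (a ^ (-β)) *
        ∫⁻ t in Icc (1 : ℝ) 2, ∫⁻ z : ℝ, ∫⁻ r in Ioi (0 : ℝ), ‖P t (r, z)‖ₑ ^ p) := by
    rw [← lintegral_const_mul' _ _ ENNReal.ofReal_ne_top,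
      ← lintegral_const_mul' _ _ ENNReal.ofReal_ne_top]
    exact lintegral_mono (fun t => h1 t)
  refine h2.trans ?_
  have h3 := ff_l2 hn hc hpol hb.le hf ha hs
  rw [h3] at hC
  generalize (∫⁻ t in Icc (1 : ℝ) 2, ∫⁻ z : ℝ, ∫⁻ r in Ioi (0 : ℝ), ‖P t (r, z)‖ₑ ^ p) = J at hC ⊢
  generalize (∫⁻ x, ‖f x‖ₑ ^ 2) = E at hC ⊢
  have h4 : a ^ (-β) * (L * (b ^ (((n : ℝ) - 1) / 2) * A) ^ (p - 2)) ≤
      2 ^ β * (L * A ^ (p - 2)) := by
    rw [Real.mul_rpow (Real.rpow_nonneg hb.le _) hA, ← Real.rpow_mul hb.le,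
      show ((n : ℝ) - 1) / 2 * (p - 2) = β by rw [hβ]; ring]
    have h5 : b ^ β ≤ 2 ^ β * a ^ β := by
      rw [← Real.mul_rpow zero_le_two ha0.le]
      exact Real.rpow_le_rpow hb.le hab hβ0
    have h6 : a ^ (-β) * a ^ β = 1 := by
      rw [← Real.rpow_add ha0, neg_add_cancel, Real.rpow_zero]
    calc a ^ (-β) * (L * (b ^ β * A ^ (p - 2))) = b ^ β * (a ^ (-β) * (L * A ^ (p - 2))) := by ring
      _ ≤ (2 ^ β * a ^ β) * (a ^ (-β) * (L * A ^ (p - 2))) :=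
          mul_le_mul_of_nonneg_right h5 (by positivity)
      _ = (a ^ (-β) * a ^ β) * (2 ^ β * (L * A ^ (p - 2))) := by ring
      _ = _ := by rw [h6, one_mul]
  calc ENNReal.ofReal (c * c' ^ p) * (ENNReal.ofReal (a ^ (-β)) * J)
      ≤ ENNReal.ofReal (c * c' ^ p) * (ENNReal.ofReal (a ^ (-β)) *
        (C * ENNReal.ofReal (L * (b ^ (((n : ℝ) - 1) / 2) * A) ^ (p - 2)) *
          (ENNReal.ofReal (1 / c) * E))) := mul_le_mul_right (mul_le_mul_right hC _) _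
    _ = ENNReal.ofReal (c * c' ^ p) * ENNReal.ofReal (1 / c) * C * E *
        ENNReal.ofReal (a ^ (-β) * (L * (b ^ (((n : ℝ) - 1) / 2) * A) ^ (p - 2))) := by
        rw [ENNReal.ofReal_mul (Real.rpow_nonneg ha0.le _)]
        ring
    _ ≤ ENNReal.ofReal (c * c' ^ p) * ENNReal.ofReal (1 / c) * C * E *
        ENNReal.ofReal (2 ^ β * (L * A ^ (p - 2))) :=
        mul_le_mul_right (ENNReal.ofReal_le_ofReal h4) _
    _ = _ := by
        have e1 : ENNReal.ofReal (c * c' ^ p * 2 ^ β * (1 / c)) =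
            ENNReal.ofReal (c * c' ^ p) * ENNReal.ofReal (2 ^ β) * ENNReal.ofReal (1 / c) := by
          rw [ENNReal.ofReal_mul (by positivity), ENNReal.ofReal_mul (by positivity)]
        have e2 : ENNReal.ofReal (2 ^ β * (L * A ^ (p - 2))) =
            ENNReal.ofReal (2 ^ β) * ENNReal.ofReal (L * A ^ (p - 2)) := by
          rw [← ENNReal.ofReal_mul (by positivity)]
        rw [e1, e2]
        ring

/-- sum over the shells -/
lemma sum_shells {n : ℕ} {p : ℝ} (hp : 1 ≤ p) (N : ℕ) (M : ℝ → EE (n + 1) → ℂ)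
    (Mj : ℕ → ℝ → EE (n + 1) → ℂ)
    (hM : ∀ j, Continuous (fun q : ℝ × EE (n + 1) => Mj j q.1 q.2))
    (hsum : ∀ t x, M t x = ∑ j ∈ Finset.range N, Mj j t x) (W : ℝ≥0∞)
    (hW : ∀ j ∈ Finset.range N, ∫⁻ t in Icc (1 : ℝ) 2, ∫⁻ x, ‖Mj j t x‖ₑ ^ p ≤ W) :
    ∫⁻ t in Icc (1 : ℝ) 2, ∫⁻ x, ‖M t x‖ₑ ^ p ≤ (N : ℝ≥0∞) ^ p * W := by
  have hm : ∀ j, Measurable (fun q : ℝ × EE (n + 1) => ‖Mj j q.1 q.2‖ₑ ^ p) :=
    fun j => ((hM j).measurable.enorm).pow_const p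
  have h1 : ∀ t x, ‖M t x‖ₑ ^ p ≤ (N : ℝ≥0∞) ^ (p - 1) * ∑ j ∈ Finset.range N, ‖Mj j t x‖ₑ ^ p := by
    intro t x
    calc ‖M t x‖ₑ ^ p ≤ (∑ j ∈ Finset.range N, ‖Mj j t x‖ₑ) ^ p := by
          apply ENNReal.rpow_le_rpow _ (by linarith)
          rw [hsum t x]
          exact enorm_sum_le _ _
      _ ≤ _ := by
          have := ENNReal.rpow_sum_le_const_mul_sum_rpow (Finset.range N)
            (fun j => ‖Mj j t x‖ₑ) hp
          rwa [Finset.card_range] at this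
  have hN : (N : ℝ≥0∞) ^ (p - 1) ≠ ⊤ :=
    ENNReal.rpow_ne_top_of_nonneg (by linarith) (ENNReal.natCast_ne_top N)
  calc ∫⁻ t in Icc (1 : ℝ) 2, ∫⁻ x, ‖M t x‖ₑ ^ p
      ≤ ∫⁻ t in Icc (1 : ℝ) 2, ∫⁻ x, (N : ℝ≥0∞) ^ (p - 1) *
          ∑ j ∈ Finset.range N, ‖Mj j t x‖ₑ ^ p :=
        lintegral_mono (fun t => lintegral_mono (fun x => h1 t x))
    _ = (N : ℝ≥0∞) ^ (p - 1) * ∑ j ∈ Finset.range N, ∫⁻ t in Icc (1 : ℝ) 2, ∫⁻ x,
          ‖Mj j t x‖ₑ ^ p := by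
        simp_rw [lintegral_const_mul' _ _ hN]
        congr 1
        rw [← lintegral_finsetSum _ (fun j _ => (hm j).lintegral_prod_right')]
        apply lintegral_congr
        intro t
        exact lintegral_finsetSum _ (fun j _ => (hm j).comp measurable_prodMk_left)
    _ ≤ (N : ℝ≥0∞) ^ (p - 1) * ∑ j ∈ Finset.range N, W :=
        mul_le_mul_right (Finset.sum_le_sum hW) _
    _ = (N : ℝ≥0∞) ^ p * W := by
        rw [Finset.sum_const, Finset.card_range, nsmul_eq_mul, ← mul_assoc]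
        congr 1
        by_cases h0 : N = 0
        · subst h0
          simp [ENNReal.zero_rpow_of_pos (show 0 < p by linarith)]
        · have h2 : (N : ℝ≥0∞) ≠ 0 := Nat.cast_ne_zero.mpr h0
          conv_lhs => rw [← ENNReal.rpow_one (N : ℝ≥0∞), ← ENNReal.rpow_mul, one_mul]
          rw [← ENNReal.rpow_add _ _ h2 (ENNReal.natCast_ne_top N), sub_add_cancel]

/-- data near the axis -/
lemma near {n : ℕ} (hn : 2 ≤ n) {c c' : ℝ} (hc : 0 < c) (hc' : 0 < c')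
    (hpol : ∀ h : ℝ × ℝ → ℝ≥0∞, Measurable h → ∫⁻ x : EE (n + 1), h (hor x, x (Fin.last n)) =
      ENNReal.ofReal c * ∫⁻ z : ℝ, ∫⁻ ρ in Ioi (0 : ℝ), h (ρ, z) * ENNReal.ofReal (ρ ^ (n - 1)))
    {p β η : ℝ} (hp : 2 < p) (hβ : β = ((n : ℝ) - 1) * (p / 2 - 1)) (C1 C2 : ℝ≥0) (K : ℝ)
    {lam Lam : ℝ} (hlam : 1 ≤ lam) (hLam : 1 ≤ Lam) (hLl : Lam ≤ 4 * lam)
    (hC1 : ∀ (A D : ℝ) (F : ℝ × ℝ → ℂ), 1 ≤ Lam * D → D ≤ 64 → PF A F →
      (∀ y, F y ≠ 0 → D ≤ y.1 ∧ y.1 ≤ 2 * D) →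
      ∫⁻ t in Icc (1 : ℝ) 2, ∫⁻ z : ℝ, ∫⁻ r in Ioi (0 : ℝ),
        ‖PU n lam Lam t F (r, z)‖ₑ ^ p * ENNReal.ofReal (r ^ (-β)) ≤
      C1 * ENNReal.ofReal (lam ^ (η / 2) * D ^ (-β) * A ^ (p - 2)) * ∫⁻ y, ‖F y‖ₑ ^ 2)
    (hC2 : ∀ (A : ℝ) (F : ℝ × ℝ → ℂ), PF A F →
      ∫⁻ t in Icc (1 : ℝ) 2, ∫⁻ z : ℝ, ∫⁻ r in Ioi (0 : ℝ),
        ‖PU n lam Lam t F (r, z)‖ₑ ^ p * ENNReal.ofReal (r ^ (-β)) ≤
      C2 * ENNReal.ofReal (lam ^ (η / 2) * Lam ^ β * A ^ (p - 2)) * ∫⁻ y, ‖F y‖ₑ ^ 2)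
    (hK : ∀ M : ℕ, (2 : ℝ) ^ M ≤ 96 * lam → ((M : ℝ) + 1) ^ p ≤ K * lam ^ (η / 2)) (hK0 : 0 ≤ K)
    {A : ℝ} {f : EE (n + 1) → ℂ} (ha : Axial f) (hf : BCd A f)
    (hred : ∀ (t : ℝ) (g : EE (n + 1) → ℂ), Axial g → BCd A g → ∀ x : EE (n + 1),
      (((hor x) ^ (((n : ℝ) - 1) / 2) : ℝ) : ℂ) * MM (sy lam Lam t) g x =
      (c' : ℂ) * PU n lam Lam t (FF n g) (hor x, x (Fin.last n)))
    (hs : ∀ x, f x ≠ 0 → hor x ≤ 24) :
    ∫⁻ t in Icc (1 : ℝ) 2, ∫⁻ x, ‖MM (sy lam Lam t) f x‖ₑ ^ p ≤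
      ENNReal.ofReal K * (ENNReal.ofReal (c * c' ^ p * 2 ^ β * (1 / c)) * ((C1 + C2 : ℝ≥0) : ℝ≥0∞)) *
        ENNReal.ofReal (lam ^ η * A ^ (p - 2)) * ∫⁻ x, ‖f x‖ₑ ^ 2 := by
  have hL0 : 0 < Lam := by linarith
  have hl0 : 0 < lam := by linarith
  have hA := bcd_nonneg hf
  have hp0 : 0 < p := by linarith
  obtain ⟨M, hM1, hM2⟩ := exists_nat_pow_near (x := 24 * Lam) (y := (2 : ℝ)) (by linarith)
    one_lt_two
  have hfsum : f = fun x => ∑ j ∈ Finset.range (M + 1), sh (shB Lam j) f x := by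
    funext x
    rw [sum_sh hL0 f M x]
    by_cases h : f x = 0
    · unfold sh
      by_cases h2 : x ∈ (hor ⁻¹' Iio (2 ^ (M + 1) / Lam) : Set (EE (n + 1)))
      · rw [indicator_of_mem h2]
      · rw [indicator_of_notMem h2, h]
    · unfold sh
      have h1 := hs x h
      have h2 : x ∈ (hor ⁻¹' Iio (2 ^ (M + 1) / Lam) : Set (EE (n + 1))) := by
        have : 24 < 2 ^ (M + 1) / Lam := by rw [lt_div_iff₀ hL0]; exact hM2
        exact lt_of_le_of_lt h1 this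
      rw [indicator_of_mem h2]
  have hbj : ∀ j, BCd A (sh (shB Lam j) f) := fun j => sh_bcd (shB_meas Lam j) hf
  have haj : ∀ j, Axial (sh (shB Lam j) f) := fun j => sh_axial ha
  have hsj : ∀ j x, sh (shB Lam j) f x ≠ 0 → hor x ≤ 2 * (2 ^ j / Lam) := by
    intro j x hx
    have h1 := (sh_ne hx).1
    unfold shB at h1
    have e1 : 2 * ((2 : ℝ) ^ j / Lam) = 2 ^ (j + 1) / Lam := by rw [pow_succ]; ring
    rw [e1]
    split_ifs at h1 with h0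
    · subst h0; exact (mem_Iio.mp h1).le
    · exact (mem_Ico.mp h1).2.le
  have hcj : ∀ j, Continuous (fun q : ℝ × EE (n + 1) => MM (sy lam Lam q.1) (sh (shB Lam j) f) q.2) :=
    fun j => continuous_MM hl0 Lam (BCd.integrable (hbj j))
  have hW : ∀ j ∈ Finset.range (M + 1),
      ∫⁻ t in Icc (1 : ℝ) 2, ∫⁻ x, ‖MM (sy lam Lam t) (sh (shB Lam j) f) x‖ₑ ^ p ≤
      ENNReal.ofReal (c * c' ^ p * 2 ^ β * (1 / c)) * ((C1 + C2 : ℝ≥0) : ℝ≥0∞) *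
        ENNReal.ofReal (lam ^ (η / 2) * A ^ (p - 2)) * ∫⁻ x, ‖f x‖ₑ ^ 2 := by
    intro j hj
    have hj' : j ≤ M := Nat.lt_succ_iff.mp (Finset.mem_range.mp hj)
    have hD : 0 < (2 : ℝ) ^ j / Lam := by positivity
    have hpf := ff_pf hn (by positivity : 0 ≤ 2 * ((2 : ℝ) ^ j / Lam)) (hbj j) (hsj j)
    have hC : ∫⁻ t in Icc (1 : ℝ) 2, ∫⁻ z : ℝ, ∫⁻ r in Ioi (0 : ℝ),
        ‖PU n lam Lam t (FF n (sh (shB Lam j) f)) (r, z)‖ₑ ^ p * ENNReal.ofReal (r ^ (-β)) ≤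
        ((C1 + C2 : ℝ≥0) : ℝ≥0∞) * ENNReal.ofReal (lam ^ (η / 2) * (2 ^ j / Lam) ^ (-β) *
          ((2 * (2 ^ j / Lam)) ^ (((n : ℝ) - 1) / 2) * A) ^ (p - 2)) *
          ∫⁻ y, ‖FF n (sh (shB Lam j) f) y‖ₑ ^ 2 := by
      by_cases h0 : j = 0
      · refine (hC2 _ _ hpf).trans ?_
        have e2 : Lam ^ β = ((2 : ℝ) ^ j / Lam) ^ (-β) := by
          rw [h0, pow_zero, one_div, Real.inv_rpow hL0.le, Real.rpow_neg hL0.le, inv_inv]
        rw [e2]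
        apply mul_le_mul_left
        apply mul_le_mul_left
        exact_mod_cast le_add_of_nonneg_left (zero_le : (0 : ℝ≥0) ≤ C1)
      · refine (hC1 _ (2 ^ j / Lam) _ ?_ ?_ hpf ?_).trans ?_
        · rw [mul_div_cancel₀ _ hL0.ne']
          exact one_le_pow₀ one_le_two
        · have h3 : (2 : ℝ) ^ j ≤ 2 ^ M := pow_le_pow_right₀ one_le_two hj'
          rw [div_le_iff₀ hL0]
          linarith
        · intro y hy
          obtain ⟨hy0, hy1, hy2⟩ := ff_ne hn hy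
          have h4 := (sh_ne hy1).1
          have h5 := hsj j _ hy1
          rw [hy2] at h4 h5
          unfold shB at h4
          rw [if_neg h0] at h4
          exact ⟨(mem_Ico.mp h4).1, h5⟩
        · apply mul_le_mul_left
          apply mul_le_mul_left
          exact_mod_cast le_add_of_nonneg_right (zero_le : (0 : ℝ≥0) ≤ C2)
    have h6 := one_shell hn hc hc' hpol hp0 hβ (Real.rpow_nonneg hl0.le (η / 2)) hD (hbj j) (haj j)
      (hsj j) (fun t => MM (sy lam Lam t) (sh (shB Lam j) f))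
      (fun t => PU n lam Lam t (FF n (sh (shB Lam j) f)))
      (fun t => continuous_MM_slice hl0 Lam (BCd.integrable (hbj j)) t)
      (fun t x => hred t _ (haj j) (hbj j) x) hC
    refine h6.trans ?_
    apply mul_le_mul_right
    apply lintegral_mono
    intro x
    have := enorm_sh_le (shB Lam j) f x
    simp only
    gcongr
  have hsum : ∀ t x, MM (sy lam Lam t) f x =
      ∑ j ∈ Finset.range (M + 1), MM (sy lam Lam t) (sh (shB Lam j) f) x := by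
    intro t x
    conv_lhs => rw [hfsum]
    exact MM_sum hl0 Lam t (Finset.range (M + 1)) (fun j => sh (shB Lam j) f)
      (fun j _ => BCd.integrable (hbj j)) x
  have h7 := sum_shells (p := p) (by linarith) (M + 1) (fun t => MM (sy lam Lam t) f)
    (fun j t => MM (sy lam Lam t) (sh (shB Lam j) f)) hcj hsum _ hW
  refine h7.trans ?_
  have h8 : ((M + 1 : ℕ) : ℝ≥0∞) ^ p ≤ ENNReal.ofReal (K * lam ^ (η / 2)) := by
    rw [← ENNReal.ofReal_natCast, ENNReal.ofReal_rpow_of_nonneg (Nat.cast_nonneg _) hp0.le]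
    apply ENNReal.ofReal_le_ofReal
    push_cast
    exact hK M (by linarith)
  have h9 : lam ^ η = lam ^ (η / 2) * lam ^ (η / 2) := by
    rw [← Real.rpow_add hl0]; congr 1; ring
  generalize (∫⁻ x, ‖f x‖ₑ ^ 2) = E
  calc ((M + 1 : ℕ) : ℝ≥0∞) ^ p * (ENNReal.ofReal (c * c' ^ p * 2 ^ β * (1 / c)) *
        ((C1 + C2 : ℝ≥0) : ℝ≥0∞) * ENNReal.ofReal (lam ^ (η / 2) * A ^ (p - 2)) * E)
      ≤ ENNReal.ofReal (K * lam ^ (η / 2)) * (ENNReal.ofReal (c * c' ^ p * 2 ^ β * (1 / c)) *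
        ((C1 + C2 : ℝ≥0) : ℝ≥0∞) * ENNReal.ofReal (lam ^ (η / 2) * A ^ (p - 2)) * E) :=
        mul_le_mul_left h8 _
    _ = _ := by
        rw [h9, ENNReal.ofReal_mul hK0, mul_assoc (lam ^ (η / 2)) (lam ^ (η / 2)),
          ENNReal.ofReal_mul (Real.rpow_nonneg hl0.le _) (q := lam ^ (η / 2) * A ^ (p - 2))]
        ring

theorem piece (h0 : T_PC0) (h1 : T_PC1) (h2 : T_PC2) (hr : T_RED1) (hpl : T_POL) : T_PIECE := by
  intro n p η hn hp hpn hη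
  obtain ⟨c', hc', hred⟩ := hr n hn
  obtain ⟨c, hc, hpol⟩ := hpl n hn
  have hn2 : (2 : ℝ) ≤ n := by exact_mod_cast hn
  have hnpos : (0 : ℝ) < n := by linarith
  obtain ⟨β, hβ⟩ : ∃ β : ℝ, β = ((n : ℝ) - 1) * (p / 2 - 1) := ⟨_, rfl⟩
  have hnp : (n : ℝ) * (p / 2 - 1) ≤ 1 := by
    have h3 : (n : ℝ) * (2 / n) = 2 := by field_simp
    have h4 : (n : ℝ) * p ≤ n * (2 + 2 / n) := mul_le_mul_of_nonneg_left hpn hnpos.le
    rw [mul_add, h3] at h4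
    linarith
  have hp3 : p ≤ 3 := by
    have : 2 / (n : ℝ) ≤ 1 := by rw [div_le_one hnpos]; exact hn2
    linarith
  have hβ0 : 0 ≤ β := by rw [hβ]; exact mul_nonneg (by linarith) (by linarith)
  have hβ2 : β ≤ 2 - p / 2 := by rw [hβ]; linarith
  have hβ1 : β < 1 := by linarith
  obtain ⟨C0, hC0⟩ := h0 n p η hn hp hp3 hη
  obtain ⟨C1, hC1⟩ := h1 n p β (η / 2) hn hp hp3 hβ0 hβ1 hβ2 (by positivity)
  obtain ⟨C2, hC2⟩ := h2 n p β (η / 2) hn hp hp3 hβ0 hβ1 (by positivity)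
  obtain ⟨K, hK0, hK⟩ := count_le (p := p) (ε := η / 2) (by linarith) (by positivity)
  refine ⟨(c * c' ^ p * 2 ^ β * (1 / c)).toNNReal * C0 +
    K.toNNReal * ((c * c' ^ p * 2 ^ β * (1 / c)).toNNReal * (C1 + C2)), ?_⟩
  intro lam Lam A f hlam hLam hLl ha hf
  have hl0 : 0 < lam := by linarith
  have hL0 : 0 < Lam := by linarith
  have hred' : ∀ (t : ℝ) (g : EE (n + 1) → ℂ), Axial g → BCd A g → ∀ x : EE (n + 1),
      (((hor x) ^ (((n : ℝ) - 1) / 2) : ℝ) : ℂ) * MM (sy lam Lam t) g x =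
      (c' : ℂ) * PU n lam Lam t (FF n g) (hor x, x (Fin.last n)) :=
    fun t g hg1 hg2 x => hred lam Lam t A g hl0 hL0 hg1 hg2 x
  have hmono1 : ENNReal.ofReal (c * c' ^ p * 2 ^ β * (1 / c)) * (C0 : ℝ≥0∞) ≤
      (((c * c' ^ p * 2 ^ β * (1 / c)).toNNReal * C0 +
        K.toNNReal * ((c * c' ^ p * 2 ^ β * (1 / c)).toNNReal * (C1 + C2)) : ℝ≥0) : ℝ≥0∞) := by
    push_cast
    exact le_self_add
  have hmono2 : ENNReal.ofReal K * (ENNReal.ofReal (c * c' ^ p * 2 ^ β * (1 / c)) *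
      ((C1 + C2 : ℝ≥0) : ℝ≥0∞)) ≤
      (((c * c' ^ p * 2 ^ β * (1 / c)).toNNReal * C0 +
        K.toNNReal * ((c * c' ^ p * 2 ^ β * (1 / c)).toNNReal * (C1 + C2)) : ℝ≥0) : ℝ≥0∞) := by
    push_cast
    exact le_add_self
  refine ⟨fun hs => ?_, fun i hi hs => ?_⟩
  · have h3 := near hn hc hc' hpol hp hβ C1 C2 K hlam hLam hLl
      (fun A' D F hD1 hD2 hF1 hF2 => hC1 lam Lam A' D F hlam hLam hLl hD1 hD2 hF1 hF2)
      (fun A' F hF => hC2 lam Lam A' F hlam hL0 hLl hF) (fun M hM => hK M lam hlam hM) hK0 ha hf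
      hred' hs
    refine h3.trans ?_
    apply mul_le_mul_left
    apply mul_le_mul_left
    exact hmono2
  · have hi2 : (2 : ℝ) ≤ i := by exact_mod_cast hi
    have h3 := away hn hc hc' hpol hp hβ hβ0 (Real.rpow_nonneg hl0.le η)
      (a := 8 * (i : ℝ)) (b := 8 * ((i : ℝ) + 2)) (by linarith) (by linarith) (by linarith) hf ha
      (fun x hx => (hs x hx).2) (fun t => MM (sy lam Lam t) f)
      (fun t => PU n lam Lam t (FF n f))
      (fun t => continuous_MM_slice hl0 Lam (BCd.integrable hf) t)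
      (fun t x => hred' t f ha hf x)
      (hC0 lam Lam _ (FF n f) hlam hL0 hLl
        (ff_pf hn (by linarith : (0 : ℝ) ≤ 8 * ((i : ℝ) + 2)) hf (fun x hx => (hs x hx).2)))
      (B := Icc (8 * (i : ℝ)) (8 * ((i : ℝ) + 1))) measurableSet_Icc
      (fun r hr => (mem_Icc.mp hr).1)
    refine h3.trans ?_
    apply mul_le_mul_left
    apply mul_le_mul_left
    exact hmono1

end Pool.Agent.H77.LS
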