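import Pool.Agent.H83.LS.Basic
import Pool.Agent.H83.LS.Targets3

/-!
Local smoothing for axially symmetric data: basic facts for module PIECE
(points of the half plane, cutoffs, continuity of multipliers).
-/

set_option autoImplicit false

namespace Pool.Agent.H77.LS

open MeasureTheory Set FourierTransform
open scoped ENNReal NNReal
open Pool.Agent.H83.LS

/-! ### points -/

lemma zero_ne_last {n : ℕ} (hn : 2 ≤ n) : (0 : Fin (n + 1)) ≠ Fin.last n := by
  intro h
  have := congrArg Fin.val h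
  simp at this
  omega

lemma pt_last {n : ℕ} (hn : 2 ≤ n) (ρ z : ℝ) : pt n ρ z (Fin.last n) = z := by
  simp [pt, (zero_ne_last hn).symm]

lemma norm_sq_pt {n : ℕ} (hn : 2 ≤ n) (ρ z : ℝ) : ‖pt n ρ z‖ ^ 2 = ρ ^ 2 + z ^ 2 := by
  rw [EuclideanSpace.real_norm_sq_eq]
  have h1 : ∀ i : Fin (n + 1), (pt n ρ z i) ^ 2 =
      (if i = 0 then ρ ^ 2 else 0) + (if i = Fin.last n then z ^ 2 else 0) := by
    intro i
    simp only [pt]
    by_cases h0 : i = 0
    · subst h0
      simp [zero_ne_last hn]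
    · by_cases hl : i = Fin.last n
      · subst hl
        simp [h0]
      · simp [h0, hl]
  rw [Finset.sum_congr rfl (fun i _ => h1 i), Finset.sum_add_distrib]
  simp

lemma sq_last_le {n : ℕ} (x : EE (n + 1)) : (x (Fin.last n)) ^ 2 ≤ ‖x‖ ^ 2 := by
  rw [EuclideanSpace.real_norm_sq_eq]
  exact Finset.single_le_sum (f := fun i => (x i) ^ 2) (fun i _ => sq_nonneg _)
    (Finset.mem_univ (Fin.last n))

lemma hor_nonneg {n : ℕ} (x : EE (n + 1)) : 0 ≤ hor x := Real.sqrt_nonneg _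

lemma hor_sq {n : ℕ} (x : EE (n + 1)) : hor x ^ 2 = ‖x‖ ^ 2 - (x (Fin.last n)) ^ 2 :=
  Real.sq_sqrt (sub_nonneg.mpr (sq_last_le x))

lemma hor_le {n : ℕ} (x : EE (n + 1)) : hor x ≤ ‖x‖ := by
  apply Real.sqrt_le_iff.mpr
  exact ⟨norm_nonneg _, by nlinarith [sq_nonneg (x (Fin.last n))]⟩

lemma hor_pt {n : ℕ} (hn : 2 ≤ n) {ρ : ℝ} (hρ : 0 ≤ ρ) (z : ℝ) : hor (pt n ρ z) = ρ := by
  unfold hor
  rw [norm_sq_pt hn, pt_last hn, add_sub_cancel_right, Real.sqrt_sq hρ]

lemma continuous_hor {n : ℕ} : Continuous (fun x : EE (n + 1) => hor x) := by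
  unfold hor
  fun_prop

lemma measurable_hor {n : ℕ} : Measurable (fun x : EE (n + 1) => hor x) :=
  continuous_hor.measurable

lemma continuous_pt {n : ℕ} : Continuous (fun y : ℝ × ℝ => pt n y.1 y.2) := by
  unfold pt
  apply (PiLp.continuous_toLp 2 _).comp
  apply continuous_pi
  intro i
  by_cases h0 : i = 0
  · simp_rw [if_pos h0]; exact continuous_fst
  · by_cases hl : i = Fin.last n
    · simp_rw [if_neg h0, if_pos hl]; exact continuous_snd
    · simp_rw [if_neg h0, if_neg hl]; exact continuous_const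

lemma axial_pt {n : ℕ} (hn : 2 ≤ n) {f : EE (n + 1) → ℂ} (hf : Axial f) (x : EE (n + 1)) :
    f x = f (pt n (hor x) (x (Fin.last n))) := by
  apply hf
  · rw [pt_last hn]
  · have h1 : ‖x‖ ^ 2 = ‖pt n (hor x) (x (Fin.last n))‖ ^ 2 := by
      rw [norm_sq_pt hn, hor_sq]; ring
    exact (pow_left_inj₀ (norm_nonneg _) (norm_nonneg _) two_ne_zero).mp h1

lemma norm_le_norm_pt {n : ℕ} (hn : 2 ≤ n) (y : ℝ × ℝ) : ‖y‖ ≤ ‖pt n y.1 y.2‖ := by
  rw [Prod.norm_def]
  apply max_le
  · apply abs_le_of_sq_le_sq' _ (norm_nonneg _) |> abs_le.mpr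
    rw [norm_sq_pt hn]; nlinarith [sq_nonneg y.2]
  · apply abs_le_of_sq_le_sq' _ (norm_nonneg _) |> abs_le.mpr
    rw [norm_sq_pt hn]; nlinarith [sq_nonneg y.1]

/-! ### cutoffs -/

lemma continuous_eta0 : Continuous eta0 := by
  unfold eta0
  exact Real.smoothTransition.continuous.comp (by fun_prop)

lemma continuous_chi : Continuous chi := by
  unfold chi
  exact continuous_eta0.sub (continuous_eta0.comp (by fun_prop))

lemma eta0_nonneg (s : ℝ) : 0 ≤ eta0 s := Real.smoothTransition.nonneg _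

lemma eta0_le_one (s : ℝ) : eta0 s ≤ 1 := Real.smoothTransition.le_one _

lemma abs_chi_le (s : ℝ) : |chi s| ≤ 1 := by
  unfold chi
  rw [abs_le]
  constructor <;> linarith [eta0_nonneg s, eta0_le_one s, eta0_nonneg (2 * s), eta0_le_one (2 * s)]

lemma eta0_eq_zero {s : ℝ} (h : 2 ≤ s) : eta0 s = 0 :=
  Real.smoothTransition.zero_of_nonpos (by linarith)

lemma chi_eq_zero {s : ℝ} (h : 2 ≤ s) : chi s = 0 := by
  unfold chi
  rw [eta0_eq_zero h, eta0_eq_zero (by linarith), sub_zero]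

/-- the symbol of a piece -/
noncomputable def sy {n : ℕ} (lam Lam t : ℝ) (ξ : EE (n + 1)) : ℂ :=
  e (t * ‖ξ‖) * ((chi (‖ξ‖ / lam) * chi (hor ξ / Lam) : ℝ) : ℂ)

lemma norm_sy_le {n : ℕ} (lam Lam t : ℝ) (ξ : EE (n + 1)) : ‖sy lam Lam t ξ‖ ≤ 1 := by
  unfold sy
  rw [norm_mul, norm_e, one_mul, Complex.norm_real, Real.norm_eq_abs, abs_mul]
  calc |chi (‖ξ‖ / lam)| * |chi (hor ξ / Lam)| ≤ 1 * 1 :=
        mul_le_mul (abs_chi_le _) (abs_chi_le _) (abs_nonneg _) zero_le_one
    _ = 1 := one_mul 1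

lemma sy_eq_zero {n : ℕ} {lam : ℝ} (hlam : 0 < lam) (Lam t : ℝ) {ξ : EE (n + 1)}
    (h : 2 * lam ≤ ‖ξ‖) : sy lam Lam t ξ = 0 := by
  unfold sy
  rw [chi_eq_zero ((le_div_iff₀ hlam).mpr h)]
  simp

lemma continuous_sy {n : ℕ} (lam Lam : ℝ) :
    Continuous (fun q : ℝ × EE (n + 1) => sy lam Lam q.1 q.2) := by
  unfold sy
  apply Continuous.mul
  · exact continuous_e.comp (by fun_prop)
  · apply Complex.continuous_ofReal.comp
    apply Continuous.mul
    · exact continuous_chi.comp (by fun_prop)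
    · exact continuous_chi.comp ((continuous_hor.comp continuous_snd).div_const _)

/-! ### multipliers -/

lemma BCd.integrable {d : ℕ} {A : ℝ} {f : EE d → ℂ} (hf : BCd A f) : Integrable f := by
  obtain ⟨hm, hb, R, hR⟩ := hf
  have h1 : IntegrableOn f (Metric.closedBall (0 : EE d) R) := by
    apply Measure.integrableOn_of_bounded (M := A)
    · exact (measure_closedBall_lt_top).ne
    · exact hm.aestronglyMeasurable
    · exact Filter.Eventually.of_forall hb
  rw [← integrableOn_univ]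
  have h2 : IntegrableOn f (Metric.closedBall (0 : EE d) R)ᶜ := by
    have : IntegrableOn (fun _ : EE d => (0 : ℂ)) (Metric.closedBall (0 : EE d) R)ᶜ :=
      integrableOn_zero
    apply this.congr_fun _ (Metric.isClosed_closedBall.measurableSet.compl)
    intro x hx
    have hx' : R < ‖x‖ := by simpa using hx
    exact (hR x hx').symm
  rw [← union_compl_self (Metric.closedBall (0 : EE d) R)]
  exact h1.union h2

lemma continuous_ft {d : ℕ} {f : EE d → ℂ} (hf : Integrable f) : Continuous (𝓕 f) :=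
  VectorFourier.fourierIntegral_continuous Real.continuous_fourierChar
    (innerSL ℝ).continuous₂ hf

lemma norm_ft_le {d : ℕ} (f : EE d → ℂ) (ξ : EE d) : ‖𝓕 f ξ‖ ≤ ∫ x, ‖f x‖ :=
  VectorFourier.norm_fourierIntegral_le_integral_norm _ _ _ _ _

/-- the integrand of a piece is dominated -/
lemma norm_integrand_le {n : ℕ} {lam : ℝ} (hlam : 0 < lam) (Lam t : ℝ) (f : EE (n + 1) → ℂ)
    (x ξ : EE (n + 1)) : ‖e (inner ℝ x ξ) * (sy lam Lam t ξ * 𝓕 f ξ)‖ ≤
      (Metric.closedBall (0 : EE (n + 1)) (2 * lam)).indicator (fun _ => ∫ x, ‖f x‖) ξ := by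
  rw [norm_mul, norm_e, one_mul]
  by_cases h : ξ ∈ Metric.closedBall (0 : EE (n + 1)) (2 * lam)
  · rw [indicator_of_mem h, norm_mul]
    calc ‖sy lam Lam t ξ‖ * ‖𝓕 f ξ‖ ≤ 1 * ∫ x, ‖f x‖ :=
          mul_le_mul (norm_sy_le _ _ _ _) (norm_ft_le f ξ) (norm_nonneg _) zero_le_one
      _ = _ := one_mul _
  · rw [indicator_of_notMem h]
    have h' : 2 * lam < ‖ξ‖ := by simpa using h
    rw [sy_eq_zero hlam Lam t h'.le, zero_mul, norm_zero]

lemma integrable_bound {d : ℕ} (R c : ℝ) :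
    Integrable ((Metric.closedBall (0 : EE d) R).indicator (fun _ => c)) := by
  rw [integrable_indicator_iff Metric.isClosed_closedBall.measurableSet]
  exact integrableOn_const (measure_closedBall_lt_top).ne

lemma aesm_integrand {n : ℕ} (lam Lam t : ℝ) {f : EE (n + 1) → ℂ} (hf : Integrable f)
    (x : EE (n + 1)) :
    AEStronglyMeasurable (fun ξ : EE (n + 1) => e (inner ℝ x ξ) * (sy lam Lam t ξ * 𝓕 f ξ)) := by
  apply Continuous.aestronglyMeasurable
  apply Continuous.mul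
  · exact continuous_e.comp (by fun_prop)
  · apply Continuous.mul
    · have h := (continuous_sy (n := n) lam Lam).comp (Continuous.prodMk_right t)
      exact h
    · exact continuous_ft hf

lemma integrable_integrand {n : ℕ} {lam : ℝ} (hlam : 0 < lam) (Lam t : ℝ) {f : EE (n + 1) → ℂ}
    (hf : Integrable f) (x : EE (n + 1)) :
    Integrable (fun ξ : EE (n + 1) => e (inner ℝ x ξ) * (sy lam Lam t ξ * 𝓕 f ξ)) :=
  (integrable_bound (2 * lam) (∫ x, ‖f x‖)).mono' (aesm_integrand lam Lam t hf x)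
    (Filter.Eventually.of_forall (fun ξ => norm_integrand_le hlam Lam t f x ξ))

/-- joint continuity in time and space -/
lemma continuous_MM {n : ℕ} {lam : ℝ} (hlam : 0 < lam) (Lam : ℝ) {f : EE (n + 1) → ℂ}
    (hf : Integrable f) :
    Continuous (fun q : ℝ × EE (n + 1) => MM (sy lam Lam q.1) f q.2) := by
  unfold MM
  apply continuous_of_dominated
    (bound := (Metric.closedBall (0 : EE (n + 1)) (2 * lam)).indicator (fun _ => ∫ x, ‖f x‖))
  · intro q
    exact aesm_integrand lam Lam q.1 hf q.2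
  · intro q
    exact Filter.Eventually.of_forall (fun ξ => norm_integrand_le hlam Lam q.1 f q.2 ξ)
  · exact integrable_bound _ _
  · refine Filter.Eventually.of_forall (fun ξ => ?_)
    apply Continuous.mul
    · exact continuous_e.comp (by fun_prop)
    · apply Continuous.mul
      · have hq : Continuous (fun q : ℝ × EE (n + 1) => (q.1, ξ)) := by fun_prop
        have h := (continuous_sy (n := n) lam Lam).comp hq
        exact h
      · exact continuous_const

lemma continuous_MM_slice {n : ℕ} {lam : ℝ} (hlam : 0 < lam) (Lam : ℝ) {f : EE (n + 1) → ℂ}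
    (hf : Integrable f) (t : ℝ) :
    Continuous (fun x : EE (n + 1) => MM (sy lam Lam t) f x) := by
  have h := (continuous_MM hlam Lam hf).comp (Continuous.prodMk_right t)
  exact h

lemma ft_sum {d : ℕ} {ι : Type*} (s : Finset ι) (f : ι → EE d → ℂ)
    (hf : ∀ i ∈ s, Integrable (f i)) (ξ : EE d) :
    𝓕 (fun x => ∑ i ∈ s, f i x) ξ = ∑ i ∈ s, 𝓕 (f i) ξ := by
  simp only [Real.fourier_eq]
  rw [← integral_finsetSum s (fun i hi => (Real.fourierIntegral_convergent_iff ξ).mpr (hf i hi))]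
  congr 1
  ext v
  rw [Finset.smul_sum]

lemma MM_sum {n : ℕ} {lam : ℝ} (hlam : 0 < lam) (Lam t : ℝ) {ι : Type*} (s : Finset ι)
    (f : ι → EE (n + 1) → ℂ) (hf : ∀ i ∈ s, Integrable (f i)) (x : EE (n + 1)) :
    MM (sy lam Lam t) (fun x => ∑ i ∈ s, f i x) x = ∑ i ∈ s, MM (sy lam Lam t) (f i) x := by
  unfold MM
  rw [← integral_finsetSum s (fun i hi => integrable_integrand hlam Lam t (hf i hi) x)]
  congr 1
  ext ξ
  rw [ft_sum s f hf ξ, Finset.mul_sum, Finset.mul_sum]

end Pool.Agent.H77.LS
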